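import Pool.Agent.Helper68.SG2.GoalsE
import Pool.Agent.Helper29.BL.PS

/-!
# Packet SH2-GEO2T (project SG, stage 2, MP_a41896_nt): elementary facts on the two points of `PTWOT`
-/

set_option autoImplicit false

namespace Pool.Agent.Helper91.SG2

open WeierstrassCurve Height
open Pool.Agent.Helper29.BL Pool.Agent.Helper92.Ru Pool.Agent.Helper42.SG
open Pool.Agent.Helper68.SG2

/-- triangle inequality (as `Pool.Agent.Helper68.SG2.ScH.qtr`) -/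
theorem qtr {G : Type} [AddCommGroup G] {H : G → ℝ} {S : ℕ → G → G} (hS : ScH H S)
    (e : ℕ) (x y : G) (θ : ℝ) (h0 : 0 ≤ θ) (h1 : θ ≤ 1) (h : H (S e x - y) ≤ θ ^ 2 * H y) :
    (1 - θ) ^ 2 * H y ≤ 4 ^ e * H x ∧ 4 ^ e * H x ≤ (1 + θ) ^ 2 * H y := by
  have hN : ∀ z, √(H z) ^ 2 = H z := fun z => Real.sq_sqrt (hS.nonneg z)
  have hn : √(H (S e x - y)) ≤ θ * √(H y) := by
    have := Real.sqrt_le_sqrt h
    rwa [Real.sqrt_mul (by positivity), Real.sqrt_sq h0] at this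
  have hsym : √(H (y - S e x)) ≤ θ * √(H y) := by rw [← neg_sub, hS.neg]; exact hn
  have a1 := hS.tri (S e x - y) y
  have a2 := hS.tri (y - S e x) (S e x)
  rw [sub_add_cancel] at a1 a2
  have y0 := Real.sqrt_nonneg (H y)
  have s0 := Real.sqrt_nonneg (H (S e x))
  rw [← hS.mul, ← hN (S e x), ← hN y]
  constructor
  · rw [← mul_pow]
    refine pow_le_pow_left₀ (mul_nonneg (by linarith) y0) ?_ 2
    linarith
  · rw [← mul_pow]
    refine pow_le_pow_left₀ s0 ?_ 2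
    linarith

theorem t_GEO2T (hFND : FND) (hPRD : PRD) : GEO2T := by
  intro K _ _ _ W₁ W₂ t₁ t₂ H₁ H₂ co₁ cp₁ co₂ cp₂ c₀ ε L θ₀ hF₁ hF₂ hε hθ₀
  have hS := (hPRD K W₁ W₂ t₁ t₂ H₁ H₂ co₁ cp₁ co₂ cp₂ c₀ hF₁ hF₂).1
  have hf₁ := (hFND K W₁ t₁ H₁ co₁ cp₁ c₀ hF₁).2
  have hf₂ := (hFND K W₂ t₂ H₂ co₂ cp₂ c₀ hF₂).2
  set θ : ℝ := min θ₀ (min (1 / 8) ε) with hθ
  have hθpos : 0 < θ := lt_min hθ₀ (lt_min (by norm_num) hε)
  have hθ8 : θ ≤ 1 / 8 := (min_le_right _ _).trans (min_le_left _ _)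
  have hθε : θ ≤ ε := (min_le_right _ _).trans (min_le_right _ _)
  have hθ2 : θ ^ 2 < 2 * ε := by nlinarith
  set K0 : ℝ := 1 + (2 * |c₀| + 1) / ε + 2 * |L| with hK0
  have hq : 0 < (2 * |c₀| + 1) / ε := by positivity
  have hL0 : 0 ≤ |L| := abs_nonneg L
  have hK1 : 1 ≤ K0 := by rw [hK0]; linarith
  have hK2 : 2 * |c₀| < ε * K0 := by
    have h1 : ε * ((2 * |c₀| + 1) / ε) = 2 * |c₀| + 1 := by field_simp
    have h2 : ε * K0 = ε + (2 * |c₀| + 1) + ε * (2 * |L|) := by rw [hK0]; rw [mul_add, mul_add, h1]; ring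
    have h3 : 0 ≤ ε * (2 * |L|) := by positivity
    linarith
  have hK3 : 2 * L ≤ K0 := by
    have := le_abs_self L
    rw [hK0]; linarith
  have hK4 : L ≤ K0 := by
    have := le_abs_self L
    rw [hK0]; linarith
  have hc : c₀ ≤ |c₀| := le_abs_self c₀
  refine ⟨θ, K0, hθpos, min_le_left _ _, by linarith, ?_⟩
  intro z x₀ e hz hzx hsc hgz hgx
  set y : ℝ := nrm H₁ H₂ z with hy
  set t : ℝ := nrm H₁ H₂ x₀ with ht
  have hypos : 0 < y := by linarith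
  have hKt : K0 ≤ t := by nlinarith
  have hεy : 2 * |c₀| < ε * y := by nlinarith
  have hεt : 2 * |c₀| < ε * t := by nlinarith
  have hz1 : ε * y ≤ hx z.1 := hgz.trans (gg_le_left z)
  have hz2 : ε * y ≤ hx z.2 := hgz.trans (gg_le_right z)
  have hx1 : ε * t ≤ hx x₀.1 := hgx.trans (gg_le_left x₀)
  have hx2 : ε * t ≤ hx x₀.2 := hgx.trans (gg_le_right x₀)
  have b1 : 2 * c₀ < hx z.1 := by linarith
  have b2 : 2 * c₀ < hx z.2 := by linarith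
  have b3 : 2 * c₀ < hx x₀.1 := by linarith
  have b4 : 2 * c₀ < hx x₀.2 := by linarith
  have n1 : hx x₀.1 - c₀ ≤ H₁ x₀.1 := by
    have := (abs_le.1 (hF₁.near x₀.1)).1
    linarith
  have n2 : hx x₀.2 - c₀ ≤ H₂ x₀.2 := by
    have := (abs_le.1 (hF₂.near x₀.2)).1
    linarith
  have m1 : H₁ (sc1 t₁ e z.1 - x₀.1) + H₂ (sc1 t₂ e z.2 - x₀.2) ≤ θ ^ 2 * t := hsc
  have p1 := hF₁.nonneg (sc1 t₁ e z.1 - x₀.1)
  have p2 := hF₂.nonneg (sc1 t₂ e z.2 - x₀.2)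
  have htpos : 0 < t := by linarith
  have hθt : θ ^ 2 * t < 2 * ε * t := mul_lt_mul_of_pos_right hθ2 htpos
  obtain ⟨q1, q2⟩ := qtr hS e z x₀ θ hθpos.le (by linarith) hsc
  rw [← hy, ← ht] at q1 q2
  have r1 : t ≤ 2 * 4 ^ e * y := by nlinarith
  have r2 : 4 ^ e * y ≤ 2 * t := by nlinarith
  refine ⟨⟨b1, b2, b3, b4⟩, ⟨by linarith, by linarith⟩,
    ⟨hz1.trans (hf₁ z.1 b1).2.1, hz2.trans (hf₂ z.2 b2).2.1⟩,
    ⟨hx1.trans (hf₁ x₀.1 b3).2.1, hx2.trans (hf₂ x₀.2 b4).2.1⟩, ⟨r1, r2⟩, ?_, by linarith⟩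
  have r3 : K0 * y ≤ (2 * 4 ^ e) * y := hzx.trans r1
  have r4 : K0 ≤ 2 * 4 ^ e := le_of_mul_le_mul_right r3 hypos
  linarith

end Pool.Agent.Helper91.SG2
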